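import Mathlib

set_option autoImplicit false

/-!
# Graphs of separation dimension at most four and arbitrarily large chromatic number
-/

namespace Pool.Agent.H386R3.SepDim

theorem blk {N a b u v : ℕ} (h : a < b) (hu : u < N) : N * a + u < N * b + v := by
  have h1 : N * (a + 1) ≤ N * b := Nat.mul_le_mul_left N h
  have h2 : N * (a + 1) = N * a + N := by ring
  omega

/-- `g` separates the pair `a, b` from the pair `x, y`. -/
def Sep {V : Type} (g : V → ℕ) (a b x y : V) : Prop :=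
  (g a < g x ∧ g a < g y ∧ g b < g x ∧ g b < g y) ∨ (g x < g a ∧ g x < g b ∧ g y < g a ∧ g y < g b)

theorem Sep.swap {V : Type} {g : V → ℕ} {a b x y : V} (h : Sep g a b x y) : Sep g x y a b := by
  unfold Sep at *; omega

theorem Sep.swap_left {V : Type} {g : V → ℕ} {a b x y : V} (h : Sep g a b x y) :
    Sep g b a x y := by
  unfold Sep at *; omega

theorem Sep.swap_right {V : Type} {g : V → ℕ} {a b x y : V} (h : Sep g a b x y) :
    Sep g a b y x := by
  unfold Sep at *; omega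

/-- In one of the first two orderings `c` is not between `a` and `b`, or in one of the last two
orderings it is after both. -/
def Thr {V : Type} (f₀ f₁ f₂ f₃ : V → ℕ) (a b c : V) : Prop :=
  (f₀ c < f₀ a ∧ f₀ c < f₀ b) ∨ (f₀ a < f₀ c ∧ f₀ b < f₀ c) ∨
  (f₁ c < f₁ a ∧ f₁ c < f₁ b) ∨ (f₁ a < f₁ c ∧ f₁ b < f₁ c) ∨
  (f₂ a < f₂ c ∧ f₂ b < f₂ c) ∨ (f₃ a < f₃ c ∧ f₃ b < f₃ c)

theorem Thr.swap {V : Type} {f₀ f₁ f₂ f₃ : V → ℕ} {a b c : V} (h : Thr f₀ f₁ f₂ f₃ a b c) :
    Thr f₀ f₁ f₂ f₃ b a c := by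
  unfold Thr at *; omega

/-- The invariant of the construction: four orderings. -/
structure Good {V : Type} (G : SimpleGraph V) (f₀ f₁ f₂ f₃ : V → ℕ) : Prop where
  inj : Function.Injective f₀
  sep : ∀ a b x y, G.Adj a b → G.Adj x y → a ≠ x → a ≠ y → b ≠ x → b ≠ y →
    Sep f₀ a b x y ∨ Sep f₁ a b x y ∨ Sep f₂ a b x y ∨ Sep f₃ a b x y
  thr : ∀ a b c, G.Adj a b → c ≠ a → c ≠ b → Thr f₀ f₁ f₂ f₃ a b c

/-- A set of points such that in every colouring by `r` colours there is a monochromatic copy of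
the pattern of `V`. -/
theorem ramsey {V : Type} [Fintype V] (f₀ f₁ : V → ℕ) (hf : Function.Injective f₀) (r : ℕ) :
    ∃ (S : Type) (_ : Fintype S) (L₀ L₁ : S → ℕ), Function.Injective L₀ ∧
      ∀ χ : S → Fin r, ∃ A : V → S, (∀ u v, (f₀ u < f₀ v → L₀ (A u) < L₀ (A v)) ∧
        (f₁ u < f₁ v → L₁ (A u) < L₁ (A v))) ∧ ∀ u v, χ (A u) = χ (A v) := by
  classical
  induction r with
  | zero =>
    refine ⟨Unit, inferInstance, fun _ => 0, fun _ => 0, fun _ _ _ => rfl, fun χ => ?_⟩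
    exact (χ ()).elim0
  | succ r ih =>
    obtain ⟨S, hS, L₀, L₁, hL, h⟩ := ih
    obtain ⟨M, hM⟩ : ∃ M : ℕ, ∀ s, L₀ s < M ∧ L₁ s < M := by
      refine ⟨(∑ s, (L₀ s + L₁ s)) + 1, fun s => ?_⟩
      have := Finset.single_le_sum (f := fun s => L₀ s + L₁ s) (fun _ _ => Nat.zero_le _)
        (Finset.mem_univ s)
      omega
    refine ⟨V × S, inferInstance, fun p => M * f₀ p.1 + L₀ p.2, fun p => M * f₁ p.1 + L₁ p.2,
      ?_, fun χ => ?_⟩
    · rintro ⟨v, s⟩ ⟨w, t⟩ hvw
      simp only at hvw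
      have h0 : f₀ v = f₀ w := by
        rcases lt_trichotomy (f₀ v) (f₀ w) with h1 | h1 | h1
        · have := blk (v := L₀ t) h1 (hM s).1
          omega
        · exact h1
        · have := blk (v := L₀ s) h1 (hM t).1
          omega
      have h1 : v = w := hf h0
      subst h1
      have h2 : s = t := hL (by omega)
      rw [h2]
    · by_cases hc : ∀ v, ∃ s, χ (v, s) = Fin.last r
      · choose w hw using hc
        refine ⟨fun v => (v, w v), fun u v => ⟨fun huv => ?_, fun huv => ?_⟩, fun u v => ?_⟩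
        · exact blk huv (hM _).1
        · exact blk huv (hM _).2
        · simp only [hw]
      · push Not at hc
        obtain ⟨v, hv⟩ := hc
        have hlt : ∀ s, (χ (v, s)).1 < r := by
          intro s
          have h1 := (χ (v, s)).2
          have h2 : (χ (v, s)).1 ≠ r := fun h3 => hv s (Fin.ext h3)
          omega
        obtain ⟨A, hA, hA2⟩ := h fun s => ⟨(χ (v, s)).1, hlt s⟩
        refine ⟨fun u => (v, A u), fun a b => ⟨fun hab => ?_, fun hab => ?_⟩, fun a b => ?_⟩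
        · have := (hA a b).1 hab
          simp only
          omega
        · have := (hA a b).2 hab
          simp only
          omega
        · have := hA2 a b
          simp only [Fin.mk.injEq] at this
          exact Fin.ext this

section Step

variable {V S : Type} (G : SimpleGraph V) (f₀ f₁ f₂ f₃ : V → ℕ) (L₀ L₁ : S → ℕ)

/-- The pattern preserving maps. -/
def Pat : Type := {A : V → S // ∀ u v, (f₀ u < f₀ v → L₀ (A u) < L₀ (A v)) ∧
  (f₁ u < f₁ v → L₁ (A u) < L₁ (A v))}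

/-- The new graph. -/
def next : SimpleGraph (S ⊕ (Pat f₀ f₁ L₀ L₁ × V)) where
  Adj p q := match p, q with
    | .inl _, .inl _ => False
    | .inl s, .inr x => x.1.1 x.2 = s
    | .inr x, .inl s => x.1.1 x.2 = s
    | .inr x, .inr y => x.1 = y.1 ∧ G.Adj x.2 y.2
  symm := ⟨by
    rintro (s | ⟨A, x⟩) (t | ⟨B, y⟩) h
    · exact h
    · exact h
    · exact h
    · exact ⟨h.1.symm, h.2.symm⟩⟩
  loopless := ⟨by
    rintro (s | ⟨A, x⟩) h
    · exact h
    · exact G.loopless.irrefl _ h.2⟩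

variable {G f₀ f₁ f₂ f₃ L₀ L₁}

theorem next_good (hG : Good G f₀ f₁ f₂ f₃) (hL : Function.Injective L₀)
    (g : Pat f₀ f₁ L₀ L₁ × V → ℕ) (hg : Function.Injective g) (N : ℕ) (hN0 : 0 < N)
    (hN : ∀ x, g x + 1 < N) (h : Pat f₀ f₁ L₀ L₁ → ℕ) (hh : Function.Injective h) (K : ℕ)
    (hK : ∀ A, h A ≤ K) (M : ℕ) (hM : ∀ v, f₂ v < M ∧ f₃ v < M) :
    Good (next G f₀ f₁ L₀ L₁)
      (Sum.elim (fun s => N * L₀ s + 0) (fun x => N * L₀ (x.1.1 x.2) + (1 + g x)))
      (Sum.elim (fun s => N * L₁ s + 0) (fun x => N * L₁ (x.1.1 x.2) + (N - 1 - g x)))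
      (Sum.elim (fun _ => M * (K + 1) + 0) (fun x => M * h x.1 + f₂ x.2))
      (Sum.elim (fun _ => M * (K + 1) + 0) (fun x => M * (K - h x.1) + f₃ x.2)) := by
  set F₀ : S ⊕ (Pat f₀ f₁ L₀ L₁ × V) → ℕ :=
    Sum.elim (fun s => N * L₀ s + 0) (fun x => N * L₀ (x.1.1 x.2) + (1 + g x)) with F₀def
  set F₁ : S ⊕ (Pat f₀ f₁ L₀ L₁ × V) → ℕ :=
    Sum.elim (fun s => N * L₁ s + 0) (fun x => N * L₁ (x.1.1 x.2) + (N - 1 - g x)) with F₁def
  set F₂ : S ⊕ (Pat f₀ f₁ L₀ L₁ × V) → ℕ :=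
    Sum.elim (fun _ => M * (K + 1) + 0) (fun x => M * h x.1 + f₂ x.2) with F₂def
  set F₃ : S ⊕ (Pat f₀ f₁ L₀ L₁ × V) → ℕ :=
    Sum.elim (fun _ => M * (K + 1) + 0) (fun x => M * (K - h x.1) + f₃ x.2) with F₃def
  have top2 : ∀ (A : Pat f₀ f₁ L₀ L₁) (v : V), M * h A + f₂ v < M * (K + 1) + 0 := by
    intro A v
    exact blk (by have := hK A; omega) (hM v).1
  have top3 : ∀ (A : Pat f₀ f₁ L₀ L₁) (v : V), M * (K - h A) + f₃ v < M * (K + 1) + 0 := by
    intro A v
    exact blk (by omega) (hM v).2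
  have b2 : ∀ (A B : Pat f₀ f₁ L₀ L₁) (u v : V), h A < h B →
      M * h A + f₂ u < M * h B + f₂ v := fun A B u v hAB => blk hAB (hM u).1
  have b3 : ∀ (A B : Pat f₀ f₁ L₀ L₁) (u v : V), h B < h A →
      M * (K - h A) + f₃ u < M * (K - h B) + f₃ v := by
    intro A B u v hAB
    exact blk (by have := hK A; have := hK B; omega) (hM u).2
  -- comparison in the star orderings
  have p0 : ∀ (A : Pat f₀ f₁ L₀ L₁) (u v : V) (x y : ℕ), f₀ u < f₀ v → x < N →
      N * L₀ (A.1 u) + x < N * L₀ (A.1 v) + y := fun A u v x y huv hx =>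
    blk ((A.2 u v).1 huv) hx
  have p1 : ∀ (A : Pat f₀ f₁ L₀ L₁) (u v : V) (x y : ℕ), f₁ u < f₁ v → x < N →
      N * L₁ (A.1 u) + x < N * L₁ (A.1 v) + y := fun A u v x y huv hx =>
    blk ((A.2 u v).2 huv) hx
  have o0 : ∀ x, 1 + g x < N := fun x => by have := hN x; omega
  have o1 : ∀ x, N - 1 - g x < N := fun x => by have := hN x; omega
  -- different blocks in the first ordering
  have q0 : ∀ (s t : S), s ≠ t → (∀ x y : ℕ, x < N → N * L₀ s + x < N * L₀ t + y) ∨
      (∀ x y : ℕ, x < N → N * L₀ t + x < N * L₀ s + y) := by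
    intro s t hst
    rcases lt_or_gt_of_ne (fun h' => hst (hL h')) with h1 | h1
    · exact Or.inl fun x y hx => blk h1 hx
    · exact Or.inr fun x y hx => blk h1 hx
  -- different copies
  have q23 : ∀ (A B : Pat f₀ f₁ L₀ L₁), A ≠ B →
      (∀ u v, M * h A + f₂ u < M * h B + f₂ v) ∨
      (∀ u v, M * (K - h A) + f₃ u < M * (K - h B) + f₃ v) := by
    intro A B hAB
    rcases lt_or_gt_of_ne (fun h' => hAB (hh h')) with h1 | h1
    · exact Or.inl fun u v => b2 A B u v h1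
    · exact Or.inr fun u v => b3 A B u v h1
  refine ⟨?_, ?_, ?_⟩
  · -- injectivity
    have key : ∀ (s t : S) (x y : ℕ), x < N → y < N → N * L₀ s + x = N * L₀ t + y →
        s = t ∧ x = y := by
      intro s t x y hx hy hst
      by_cases h1 : s = t
      · subst h1; exact ⟨rfl, by omega⟩
      · rcases q0 s t h1 with h2 | h2
        · have := h2 x y hx; omega
        · have := h2 y x hy; omega
    rintro (s | x) (t | y) hxy
    all_goals simp only [F₀def] at hxy
    · simp only [Sum.elim_inl] at hxy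
      rw [(key s t 0 0 hN0 hN0 hxy).1]
    · simp only [Sum.elim_inl, Sum.elim_inr] at hxy
      have := (key _ _ _ _ hN0 (o0 y) hxy).2
      omega
    · simp only [Sum.elim_inl, Sum.elim_inr] at hxy
      have := (key _ _ _ _ (o0 x) hN0 hxy).2
      omega
    · simp only [Sum.elim_inr] at hxy
      have := (key _ _ _ _ (o0 x) (o0 y) hxy).2
      rw [hg (show g x = g y by omega)]
  · -- separation
    have inin : ∀ (A B : Pat f₀ f₁ L₀ L₁) (u v w z : V), G.Adj u v → G.Adj w z →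
        (A = B → u ≠ w ∧ u ≠ z ∧ v ≠ w ∧ v ≠ z) →
        Sep F₀ (.inr (A, u)) (.inr (A, v)) (.inr (B, w)) (.inr (B, z)) ∨
        Sep F₁ (.inr (A, u)) (.inr (A, v)) (.inr (B, w)) (.inr (B, z)) ∨
        Sep F₂ (.inr (A, u)) (.inr (A, v)) (.inr (B, w)) (.inr (B, z)) ∨
        Sep F₃ (.inr (A, u)) (.inr (A, v)) (.inr (B, w)) (.inr (B, z)) := by
      intro A B u v w z huv hwz hd
      by_cases hAB : A = B
      · subst hAB
        obtain ⟨h1, h2, h3, h4⟩ := hd rfl
        rcases hG.sep u v w z huv hwz h1 h2 h3 h4 with h5 | h5 | h5 | h5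
        · left
          rcases h5 with ⟨e1, e2, e3, e4⟩ | ⟨e1, e2, e3, e4⟩
          · exact Or.inl ⟨p0 A _ _ _ _ e1 (o0 _), p0 A _ _ _ _ e2 (o0 _),
              p0 A _ _ _ _ e3 (o0 _), p0 A _ _ _ _ e4 (o0 _)⟩
          · exact Or.inr ⟨p0 A _ _ _ _ e1 (o0 _), p0 A _ _ _ _ e2 (o0 _),
              p0 A _ _ _ _ e3 (o0 _), p0 A _ _ _ _ e4 (o0 _)⟩
        · right; left
          rcases h5 with ⟨e1, e2, e3, e4⟩ | ⟨e1, e2, e3, e4⟩
          · exact Or.inl ⟨p1 A _ _ _ _ e1 (o1 _), p1 A _ _ _ _ e2 (o1 _),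
              p1 A _ _ _ _ e3 (o1 _), p1 A _ _ _ _ e4 (o1 _)⟩
          · exact Or.inr ⟨p1 A _ _ _ _ e1 (o1 _), p1 A _ _ _ _ e2 (o1 _),
              p1 A _ _ _ _ e3 (o1 _), p1 A _ _ _ _ e4 (o1 _)⟩
        · right; right; left
          simp only [Sep, Sum.elim_inr, F₂] at h5 ⊢
          omega
        · right; right; right
          simp only [Sep, Sum.elim_inr, F₃] at h5 ⊢
          omega
      · rcases q23 A B hAB with h1 | h1
        · right; right; left
          exact Or.inl ⟨h1 _ _, h1 _ _, h1 _ _, h1 _ _⟩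
        · right; right; right
          exact Or.inl ⟨h1 _ _, h1 _ _, h1 _ _, h1 _ _⟩
    have incr : ∀ (A B : Pat f₀ f₁ L₀ L₁) (u v w : V), G.Adj u v →
        (A = B → w ≠ u ∧ w ≠ v) →
        Sep F₀ (.inr (A, u)) (.inr (A, v)) (.inl (B.1 w)) (.inr (B, w)) ∨
        Sep F₁ (.inr (A, u)) (.inr (A, v)) (.inl (B.1 w)) (.inr (B, w)) ∨
        Sep F₂ (.inr (A, u)) (.inr (A, v)) (.inl (B.1 w)) (.inr (B, w)) ∨
        Sep F₃ (.inr (A, u)) (.inr (A, v)) (.inl (B.1 w)) (.inr (B, w)) := by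
      intro A B u v w huv hd
      by_cases hAB : A = B
      · subst hAB
        obtain ⟨h1, h2⟩ := hd rfl
        rcases hG.thr u v w huv h1 h2 with ⟨e1, e2⟩ | ⟨e1, e2⟩ | ⟨e1, e2⟩ | ⟨e1, e2⟩ |
          ⟨e1, e2⟩ | ⟨e1, e2⟩
        · left
          exact Or.inr ⟨p0 A _ _ _ _ e1 hN0, p0 A _ _ _ _ e2 hN0,
            p0 A _ _ _ _ e1 (o0 _), p0 A _ _ _ _ e2 (o0 _)⟩
        · left
          exact Or.inl ⟨p0 A _ _ _ _ e1 (o0 _), p0 A _ _ _ _ e1 (o0 _),
            p0 A _ _ _ _ e2 (o0 _), p0 A _ _ _ _ e2 (o0 _)⟩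
        · right; left
          exact Or.inr ⟨p1 A _ _ _ _ e1 hN0, p1 A _ _ _ _ e2 hN0,
            p1 A _ _ _ _ e1 (o1 _), p1 A _ _ _ _ e2 (o1 _)⟩
        · right; left
          exact Or.inl ⟨p1 A _ _ _ _ e1 (o1 _), p1 A _ _ _ _ e1 (o1 _),
            p1 A _ _ _ _ e2 (o1 _), p1 A _ _ _ _ e2 (o1 _)⟩
        · right; right; left
          exact Or.inl ⟨top2 _ _, by simp only [F₂, Sum.elim_inr]; omega, top2 _ _,
            by simp only [F₂, Sum.elim_inr]; omega⟩
        · right; right; right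
          exact Or.inl ⟨top3 _ _, by simp only [F₃, Sum.elim_inr]; omega, top3 _ _,
            by simp only [F₃, Sum.elim_inr]; omega⟩
      · rcases q23 A B hAB with h1 | h1
        · right; right; left
          exact Or.inl ⟨top2 _ _, h1 _ _, top2 _ _, h1 _ _⟩
        · right; right; right
          exact Or.inl ⟨top3 _ _, h1 _ _, top3 _ _, h1 _ _⟩
    have crcr : ∀ (A B : Pat f₀ f₁ L₀ L₁) (u w : V), A.1 u ≠ B.1 w →
        Sep F₀ (.inl (A.1 u)) (.inr (A, u)) (.inl (B.1 w)) (.inr (B, w)) := by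
      intro A B u w hst
      rcases q0 _ _ hst with h1 | h1
      · exact Or.inl ⟨h1 _ _ hN0, h1 _ _ hN0, h1 _ _ (o0 _), h1 _ _ (o0 _)⟩
      · exact Or.inr ⟨h1 _ _ hN0, h1 _ _ hN0, h1 _ _ (o0 _), h1 _ _ (o0 _)⟩
    rintro (s | ⟨A, u⟩) (t | ⟨B, v⟩) (s' | ⟨A', u'⟩) (t' | ⟨B', v'⟩) hab hxy n1 n2 n3 n4
    all_goals simp only [next] at hab hxy
    · subst hab hxy
      have := crcr B B' v v' (fun h' => n1 (by rw [h']))
      left; exact this
    · subst hab hxy
      have := crcr B A' v u' (fun h' => n2 (by rw [h']))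
      left; exact this.swap_right
    · obtain ⟨rfl, hxy⟩ := hxy
      subst hab
      have := incr A' B u' v' v hxy (fun h' => by
        subst h'
        exact ⟨fun h' => n3 (by rw [h']), fun h' => n4 (by rw [h'])⟩)
      rcases this with h1 | h1 | h1 | h1
      · left; exact h1.swap
      · right; left; exact h1.swap
      · right; right; left; exact h1.swap
      · right; right; right; exact h1.swap
    · subst hab hxy
      have := crcr A B' u v' (fun h' => n3 (by rw [h']))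
      left; exact this.swap_left
    · subst hab hxy
      have := crcr A A' u u' (fun h' => n4 (by rw [h']))
      left; exact this.swap_left.swap_right
    · obtain ⟨rfl, hxy⟩ := hxy
      subst hab
      have := incr A' A u' v' u hxy (fun h' => by
        subst h'
        exact ⟨fun h' => n1 (by rw [h']), fun h' => n2 (by rw [h'])⟩)
      rcases this with h1 | h1 | h1 | h1
      · left; exact h1.swap.swap_left
      · right; left; exact h1.swap.swap_left
      · right; right; left; exact h1.swap.swap_left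
      · right; right; right; exact h1.swap.swap_left
    · obtain ⟨rfl, hab⟩ := hab
      subst hxy
      exact incr A B' u v v' hab (fun h' => by
        subst h'
        exact ⟨fun h' => n2 (by rw [h']), fun h' => n4 (by rw [h'])⟩)
    · obtain ⟨rfl, hab⟩ := hab
      subst hxy
      have := incr A A' u v u' hab (fun h' => by
        subst h'
        exact ⟨fun h' => n1 (by rw [h']), fun h' => n3 (by rw [h'])⟩)
      rcases this with h1 | h1 | h1 | h1
      · left; exact h1.swap_right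
      · right; left; exact h1.swap_right
      · right; right; left; exact h1.swap_right
      · right; right; right; exact h1.swap_right
    · obtain ⟨rfl, hab⟩ := hab
      obtain ⟨rfl, hxy⟩ := hxy
      exact inin A A' u v u' v' hab hxy (fun h' => by
        subst h'
        exact ⟨fun h' => n1 (by rw [h']), fun h' => n2 (by rw [h']),
          fun h' => n3 (by rw [h']), fun h' => n4 (by rw [h'])⟩)
  · -- thresholds
    have inn : ∀ (A : Pat f₀ f₁ L₀ L₁) (u v : V), G.Adj u v →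
        ∀ c : S ⊕ (Pat f₀ f₁ L₀ L₁ × V), c ≠ .inr (A, u) → c ≠ .inr (A, v) →
        Thr F₀ F₁ F₂ F₃ (.inr (A, u)) (.inr (A, v)) c := by
      rintro A u v huv (t | ⟨B, w⟩) c1 c2
      · exact Or.inr (Or.inr (Or.inr (Or.inr (Or.inl ⟨top2 _ _, top2 _ _⟩))))
      · by_cases hAB : A = B
        · subst hAB
          rcases hG.thr u v w huv (fun h' => c1 (by rw [h'])) (fun h' => c2 (by rw [h'])) with
            ⟨e1, e2⟩ | ⟨e1, e2⟩ | ⟨e1, e2⟩ | ⟨e1, e2⟩ | ⟨e1, e2⟩ | ⟨e1, e2⟩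
          · exact Or.inl ⟨p0 A _ _ _ _ e1 (o0 _), p0 A _ _ _ _ e2 (o0 _)⟩
          · exact Or.inr (Or.inl ⟨p0 A _ _ _ _ e1 (o0 _), p0 A _ _ _ _ e2 (o0 _)⟩)
          · exact Or.inr (Or.inr (Or.inl ⟨p1 A _ _ _ _ e1 (o1 _), p1 A _ _ _ _ e2 (o1 _)⟩))
          · exact Or.inr (Or.inr (Or.inr (Or.inl
              ⟨p1 A _ _ _ _ e1 (o1 _), p1 A _ _ _ _ e2 (o1 _)⟩)))
          · refine Or.inr (Or.inr (Or.inr (Or.inr (Or.inl ⟨?_, ?_⟩)))) <;>
              simp only [F₂, Sum.elim_inr] <;> omega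
          · refine Or.inr (Or.inr (Or.inr (Or.inr (Or.inr ⟨?_, ?_⟩)))) <;>
              simp only [F₃, Sum.elim_inr] <;> omega
        · rcases q23 A B hAB with h1 | h1
          · exact Or.inr (Or.inr (Or.inr (Or.inr (Or.inl ⟨h1 _ _, h1 _ _⟩))))
          · exact Or.inr (Or.inr (Or.inr (Or.inr (Or.inr ⟨h1 _ _, h1 _ _⟩))))
    have crs : ∀ (A : Pat f₀ f₁ L₀ L₁) (u : V),
        ∀ c : S ⊕ (Pat f₀ f₁ L₀ L₁ × V), c ≠ .inl (A.1 u) → c ≠ .inr (A, u) →
        Thr F₀ F₁ F₂ F₃ (.inl (A.1 u)) (.inr (A, u)) c := by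
      rintro A u (t | ⟨B, w⟩) c1 c2
      · have hst : A.1 u ≠ t := fun h' => c1 (by rw [h'])
        rcases q0 _ _ hst with h1 | h1
        · exact Or.inr (Or.inl ⟨h1 _ _ hN0, h1 _ _ (o0 _)⟩)
        · exact Or.inl ⟨h1 _ _ hN0, h1 _ _ hN0⟩
      · by_cases hst : A.1 u = B.1 w
        · have hne : g (A, u) ≠ g (B, w) := fun h' => c2 (by rw [hg h'])
          have l1 := hN (A, u)
          have l2 := hN (B, w)
          rcases lt_or_gt_of_ne hne with h1 | h1
          · refine Or.inr (Or.inl ⟨?_, ?_⟩) <;>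
              simp only [F₀, Sum.elim_inr, Sum.elim_inl, ← hst] <;> omega
          · refine Or.inr (Or.inr (Or.inr (Or.inl ⟨?_, ?_⟩))) <;>
              simp only [F₁, Sum.elim_inr, Sum.elim_inl, ← hst] <;> omega
        · rcases q0 _ _ hst with h1 | h1
          · exact Or.inr (Or.inl ⟨h1 _ _ hN0, h1 _ _ (o0 _)⟩)
          · exact Or.inl ⟨h1 _ _ (o0 _), h1 _ _ (o0 _)⟩
    rintro (s | ⟨A, u⟩) (t | ⟨B, v⟩) c hab c1 c2
    all_goals simp only [next] at hab
    · subst hab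
      exact crs B v c c1 c2
    · subst hab
      exact (crs A u c c2 c1).swap
    · obtain ⟨rfl, hab⟩ := hab
      exact inn A u v hab c c1 c2

end Step

theorem exists_good (k : ℕ) : ∃ (V : Type) (_ : Fintype V) (G : SimpleGraph V)
    (f₀ f₁ f₂ f₃ : V → ℕ), Good G f₀ f₁ f₂ f₃ ∧ ¬ G.Colorable k := by
  classical
  induction k with
  | zero =>
    refine ⟨Unit, inferInstance, ⊥, fun _ => 0, fun _ => 0, fun _ => 0, fun _ => 0,
      ⟨fun _ _ _ => rfl, fun a b x y h => h.elim, fun a b c h => h.elim⟩, ?_⟩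
    rintro ⟨C⟩
    exact (C ()).elim0
  | succ k ih =>
    obtain ⟨V, hV, G, f₀, f₁, f₂, f₃, hG, hk⟩ := ih
    obtain ⟨S, hS, L₀, L₁, hL, hram⟩ := ramsey f₀ f₁ hG.inj (k + 1)
    have : Finite (Pat f₀ f₁ L₀ L₁) := by unfold Pat; infer_instance
    have : Fintype (Pat f₀ f₁ L₀ L₁) := Fintype.ofFinite _
    obtain ⟨M, hM⟩ : ∃ M : ℕ, ∀ v, f₂ v < M ∧ f₃ v < M := by
      refine ⟨(∑ v, (f₂ v + f₃ v)) + 1, fun v => ?_⟩
      have := Finset.single_le_sum (f := fun v => f₂ v + f₃ v) (fun _ _ => Nat.zero_le _)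
        (Finset.mem_univ v)
      omega
    refine ⟨S ⊕ (Pat f₀ f₁ L₀ L₁ × V), inferInstance, next G f₀ f₁ L₀ L₁, _, _, _, _,
      next_good hG hL (fun x => (Fintype.equivFin (Pat f₀ f₁ L₀ L₁ × V) x : ℕ))
        (fun a b hab => (Fintype.equivFin _).injective (Fin.ext hab))
        (Fintype.card (Pat f₀ f₁ L₀ L₁ × V) + 2) (by omega) (fun x => by
          have := (Fintype.equivFin (Pat f₀ f₁ L₀ L₁ × V) x).2
          omega)
        (fun A => (Fintype.equivFin (Pat f₀ f₁ L₀ L₁) A : ℕ))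
        (fun a b hab => (Fintype.equivFin _).injective (Fin.ext hab))
        (Fintype.card (Pat f₀ f₁ L₀ L₁)) (fun A => by
          have := (Fintype.equivFin (Pat f₀ f₁ L₀ L₁) A).2
          omega) M hM, ?_⟩
    rintro ⟨C⟩
    obtain ⟨A, hA, hmono⟩ := hram fun s => C (.inl s)
    apply hk
    by_cases hne : Nonempty V
    · obtain ⟨v₀⟩ := hne
      let P : Pat f₀ f₁ L₀ L₁ := ⟨A, hA⟩
      have hc : ∀ v, C (.inr (P, v)) ≠ C (.inl (A v₀)) := by
        intro v
        have h1 : C (.inr (P, v)) ≠ C (.inl (A v)) := C.valid (show (next G f₀ f₁ L₀ L₁).Adj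
          (.inr (P, v)) (.inl (A v)) from rfl)
        rw [← hmono v v₀]
        exact h1
      let D : G.Coloring {d : Fin (k + 1) // d ≠ C (.inl (A v₀))} :=
        SimpleGraph.Coloring.mk (fun v => ⟨C (.inr (P, v)), hc v⟩) (by
          intro v w hvw heq
          have h1 : C (.inr (P, v)) ≠ C (.inr (P, w)) := C.valid
            (show (next G f₀ f₁ L₀ L₁).Adj (.inr (P, v)) (.inr (P, w)) from ⟨rfl, hvw⟩)
          exact h1 (congrArg Subtype.val heq))
      have := D.colorable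
      have hcard : Fintype.card {d : Fin (k + 1) // d ≠ C (.inl (A v₀))} = k := by
        rw [Fintype.card_subtype_compl, Fintype.card_fin]
        simp
      rwa [hcard] at this
    · have : IsEmpty V := not_nonempty_iff.1 hne
      exact ⟨SimpleGraph.Coloring.mk (fun v => (this.false v).elim) (fun {v} => (this.false v).elim)⟩

end Pool.Agent.H386R3.SepDim
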